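import Pool.Agent.Helper58.DP.Def
import Pool.Agent.Helper27.NS.G1

/-!
# Deformation of a pair of free lines, B: the sections generate over every field
-/

set_option autoImplicit false
set_option linter.unusedSectionVars false

open Polynomial Finset DirectSum

namespace Pool.Agent.Helper74.DP

open Pool.Agent.Helper766_CF Pool.Agent.Helper766_CG Pool.Agent.Helper766_CH
open Pool.Agent.Helper58.CS Pool.Agent.Helper58.OP Pool.Agent.Helper58.SH Pool.Agent.Helper58.BG
open Pool.Agent.Helper58.LC Pool.Agent.Helper58.NS Pool.Agent.Helper58.DP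
open Pool.Agent.Helper27.NS

variable {R : Type} [CommRing R] [Algebra ℂ R] {𝒜 : ℕ → Submodule ℂ R} [GradedAlgebra 𝒜]
  {br : R →ₗ[ℂ] R →ₗ[ℂ] R} {k : Type} [Field k] [Algebra ℂ k] [IsAlgClosed k]

lemma local_gen_all {f : R →ₐ[ℂ] k[X]} (hgg : GGA 𝒜 f) (lam : k) :
    Ders f ≤ Secs 𝒜 f ⊔ (Ideal.span {X - Polynomial.C lam} : Ideal k[X]) • Ders f := by
  intro δ hδ
  have h1 : IsDer f δ := hδ
  let δl : R →ₗ[ℂ] k := ((Polynomial.aeval lam : k[X] →ₐ[k] k).restrictScalars ℂ).toLinearMap.comp δ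
  have hδl : ∀ r, δl r = (δ r).eval lam := by
    intro r
    change Polynomial.aeval lam (δ r) = _
    rw [Polynomial.coe_aeval_eq_eval]
  obtain ⟨V, hV, hVe⟩ := hgg lam δl (by
    intro a b
    rw [hδl, hδl, hδl, h1.mul, Polynomial.eval_add, Polynomial.eval_mul, Polynomial.eval_mul])
  have hVd : V ∈ Ders f := hV.der
  obtain ⟨δ', hδ', he⟩ := div_der ((Ders f).sub_mem hδ hVd : IsDer f (δ - V)) lam (by
    intro r
    rw [LinearMap.sub_apply, Polynomial.eval_sub, ← hVe, hδl, sub_self])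
  have e : δ = V + (X - Polynomial.C lam) • δ' := by rw [← he]; abel
  rw [e]
  apply Submodule.add_mem_sup
  · exact Submodule.subset_span hV
  · exact Submodule.smul_mem_smul (Ideal.subset_span rfl) hδ'

/-- The sections generate all derivations. -/
lemma ders_le_secs (hfg : Algebra.FiniteType ℂ R) {f : R →ₐ[ℂ] k[X]}
    (hgg : GGA 𝒜 f) : ∀ δ ∈ Ders f, δ ∈ Secs 𝒜 f := by
  let J : Ideal k[X] :=
    { carrier := {p | ∀ δ ∈ Ders f, p • δ ∈ Secs 𝒜 f}
      add_mem' := fun {a b} ha hb δ hδ => by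
        rw [add_smul]; exact Submodule.add_mem _ (ha δ hδ) (hb δ hδ)
      zero_mem' := fun δ _ => by rw [zero_smul]; exact Submodule.zero_mem _
      smul_mem' := fun c p hp δ hδ => by
        rw [smul_eq_mul, mul_smul]
        exact Submodule.smul_mem _ c (hp δ hδ) }
  have hmem : ∀ p, p ∈ J ↔ ∀ δ ∈ Ders f, p • δ ∈ Secs 𝒜 f := fun p => Iff.rfl
  have hloc : ∀ lam : k, ∃ r ∈ J, r.eval lam = 1 := by
    intro lam
    obtain ⟨r, hr1, hr2⟩ := Submodule.exists_sub_one_mem_and_smul_le_of_fg_of_le_sup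
      (ders_fg hfg f) le_rfl (local_gen_all hgg lam)
    refine ⟨r, ?_, ?_⟩
    · rw [hmem]
      intro δ hδ
      exact hr2 (Submodule.smul_mem_pointwise_smul δ r _ hδ)
    · rw [Ideal.mem_span_singleton, Polynomial.dvd_iff_isRoot, Polynomial.IsRoot.def,
        Polynomial.eval_sub, Polynomial.eval_one, sub_eq_zero] at hr1
      exact hr1
  obtain ⟨p, hp⟩ := (IsPrincipalIdealRing.principal J).principal
  have hpJ : ∀ q, q ∈ J ↔ p ∣ q := by
    intro q
    have h1 : J = Ideal.span {p} := hp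
    rw [h1, Ideal.mem_span_singleton]
  have hroot : ∀ lam : k, p.eval lam ≠ 0 := by
    intro lam h0
    obtain ⟨r, hr, hr1⟩ := hloc lam
    obtain ⟨q, hq⟩ := (hpJ r).1 hr
    rw [hq, Polynomial.eval_mul, h0, zero_mul] at hr1
    exact zero_ne_one hr1
  have hdeg : p.degree = 0 := by
    by_contra hne
    obtain ⟨lam, hl⟩ := IsAlgClosed.exists_root p hne
    exact hroot lam hl
  have hu : IsUnit p := Polynomial.isUnit_iff_degree_eq_zero.2 hdeg
  have h1 : (1 : k[X]) ∈ J := (hpJ 1).2 hu.dvd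
  intro δ hδ
  have := (hmem 1).1 h1 δ hδ
  rwa [one_smul] at this

/-- B. The sections generate over every field. -/
theorem bc (C : Core 𝒜 br) {f : R →ₐ[ℂ] k[X]} (hf : IsCurve 𝒜 k 1 f) (hgg : GGA 𝒜 f) {N : ℕ}
    {V : Fin N → (R →ₗ[ℂ] k[X])} (hV : ∀ i, Sec 𝒜 f (V i))
    (hsp : ∀ W, Sec 𝒜 f W → ∃ c : Fin N → k, W = ∑ i, c i • V i) {K : Type} [Field K]
    [Algebra ℂ K] [Algebra k K] [IsScalarTower ℂ k K] (lam : K) (δ : R →ₗ[ℂ] K)
    (hδ : ∀ a b, δ (a * b) = aeval lam (f a) * δ b + aeval lam (f b) * δ a) :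
    ∃ c : Fin N → K, ∀ r, δ r = ∑ i, c i * aeval lam (V i r) := by
  classical
  -- the point
  let ev : k[X] →ₐ[ℂ] K := (aeval lam : k[X] →ₐ[k] K).restrictScalars ℂ
  have hev : ∀ q, ev q = aeval lam q := fun q => rfl
  let p : R →ₐ[ℂ] K := ev.comp f
  have hp : ∀ r, p r = aeval lam (f r) := fun r => rfl
  have hen : EN 𝒜 p := by
    have h0 := hf.en
    rw [EN] at h0 ⊢
    have h1 := congrArg (Ideal.map (ev : k[X] →+* K)) h0
    rw [Ideal.map_top, Ideal.map_span] at h1
    rw [eq_top_iff, ← h1]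
    apply Ideal.span_mono
    rintro _ ⟨_, ⟨d, hd, a, ha, rfl⟩, rfl⟩
    exact ⟨d, hd, a, ha, rfl⟩
  have hder : IsDer p δ := ⟨fun a b => by rw [hδ, hp, hp]⟩
  obtain ⟨L, hL⟩ := Pool.Agent.Helper58.LC.Spec.exists_hv C hen δ hder
  -- the Hamiltonians are combinations of the sections
  have hspan : ∀ W ∈ Secs 𝒜 f, ∃ P : Fin N → k[X], W = ∑ i, P i • V i := by
    intro W hW
    unfold Secs at hW
    induction hW using Submodule.span_induction with
    | mem W hW =>
      obtain ⟨c, hc⟩ := hsp W hW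
      refine ⟨fun i => Polynomial.C (c i), ?_⟩
      rw [hc]
      refine Finset.sum_congr rfl fun i _ => ?_
      ext1 r
      rw [LinearMap.smul_apply, LinearMap.smul_apply, Polynomial.smul_eq_C_mul, smul_eq_mul]
    | zero => exact ⟨0, by simp⟩
    | add x y _ _ hx hy =>
      obtain ⟨P, hP⟩ := hx
      obtain ⟨Q, hQ⟩ := hy
      refine ⟨P + Q, ?_⟩
      rw [hP, hQ, ← Finset.sum_add_distrib]
      refine Finset.sum_congr rfl fun i _ => ?_
      rw [Pi.add_apply, add_smul]
    | smul a x _ hx =>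
      obtain ⟨P, hP⟩ := hx
      refine ⟨fun i => a * P i, ?_⟩
      rw [hP, Finset.smul_sum]
      refine Finset.sum_congr rfl fun i _ => ?_
      rw [mul_smul]
  have hham : ∀ a : R, ∃ P : Fin N → k[X], ∀ r, f (br a r) = ∑ i, P i * V i r := by
    intro a
    let W : R →ₗ[ℂ] k[X] := f.toLinearMap.comp (br a)
    have hW : IsDer f W := ⟨fun x y => by
      change f (br a (x * y)) = f x * f (br a y) + f y * f (br a x)
      rw [C.poisson.leibniz, map_add, map_mul, map_mul]⟩
    obtain ⟨P, hP⟩ := hspan W (ders_le_secs C.fg hgg W hW)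
    refine ⟨P, fun r => ?_⟩
    have : W r = (∑ i, P i • V i) r := by rw [← hP]
    rw [LinearMap.sum_apply] at this
    exact this
  choose P hP using hham
  refine ⟨fun i => (L.map fun q => q.2 * aeval lam (P q.1 i)).sum, fun r => ?_⟩
  rw [hL r, hv]
  clear hL
  induction L with
  | nil => simp
  | cons q L ih =>
    simp only [List.map_cons, List.sum_cons]
    rw [ih, hp, hP, map_sum, Finset.mul_sum, ← Finset.sum_add_distrib]
    refine Finset.sum_congr rfl fun i _ => ?_
    rw [map_mul]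
    ring

end Pool.Agent.Helper74.DP
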